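import Pool.Agent.H.MP_e9bccb.N

set_option autoImplicit false
open Set Topology

namespace Pool.Agent.Results.MP_294ed4_gt.Gulko

def WeakSigmaPF {Z : Type} (A : Set (Set Z)) : Prop :=
  ∃ B : ℕ → Set (Set Z), A = ⋃ n, B n ∧ ∀ x, A = ⋃ n ∈ {n | {s ∈ B n | x ∈ s}.Finite}, B n

def WeakSigmaMC (Z : Type) [TopologicalSpace Z] : Prop :=
  ∀ U : Set (Set Z), (∀ u ∈ U, IsOpen u) → ⋃₀ U = univ → ∃ V : Set (Set Z), (∀ v ∈ V, IsOpen v) ∧
    ⋃₀ V = univ ∧ (∀ v ∈ V, ∃ u ∈ U, v ⊆ u) ∧ WeakSigmaPF V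

def LindelofSigma (Z : Type) [TopologicalSpace Z] : Prop :=
  ∃ N C : Set (Set Z), N.Countable ∧ ⋃₀ C = univ ∧ ∀ K ∈ C, IsCompact K ∧
    ∀ U, IsOpen U → K ⊆ U → ∃ s ∈ N, K ⊆ s ∧ s ⊆ U

theorem result (X : Type) [TopologicalSpace X] [CompactSpace X] [T2Space X]
    (hX : WeakSigmaMC {p : X × X // p.1 ≠ p.2}) :
    (∀ A : Set (X × X), WeakSigmaMC A) ∧ LindelofSigma {g : X → ℝ // Continuous g} := by
  have o : IsOpenEmbedding ((↑) : {p : X × X // p.1 ≠ p.2} → X × X) :=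
    (isOpen_ne_fun continuous_fst continuous_snd).isOpenEmbedding_subtypeVal
  obtain ⟨V, v1, v2, v3, B, b1, b2⟩ := hX {u | IsOpen u ∧ ∀ p ∈ closure (Subtype.val '' u),
    p.1 ≠ p.2} (fun _ e => e.1) (eq_univ_of_forall fun p => by
      obtain ⟨C, c1, c2, c3⟩ := exists_mem_nhds_isClosed_subset
        ((isOpen_ne_fun continuous_fst continuous_snd).mem_nhds p.2)
      exact ⟨Subtype.val ⁻¹' interior C, ⟨isOpen_interior.preimage continuous_subtype_val,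
        fun q hq => c3 (closure_minimal ((image_preimage_subset _ _).trans interior_subset) c2 hq)⟩,
          mem_interior_iff_mem_nhds.2 c1⟩)
  have cv : ∀ p : X × X, p.1 ≠ p.2 → ∃ v : V, p ∈ Subtype.val '' v.1 := fun p e =>
    let ⟨v, a, b⟩ := v2.ge (mem_univ ⟨p, e⟩)
    ⟨⟨v, a⟩, _, b, rfl⟩
  obtain ⟨S, s1, s2⟩ := H.MP_e9bccb.shr (V := fun v : V => Subtype.val '' v.1)
    (fun v => o.isOpenMap _ (v1 _ v.2)) fun v p hp => mem_iUnion.2 (cv p (by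
      obtain ⟨u, u1, u2⟩ := v3 _ v.2
      exact u1.2 p (closure_mono (image_mono u2) hp)))
  choose g hg using fun v => ((s1 v).1.insert 0).exists_eq_range (insert_nonempty _ _)
  have g1 : ∀ v k p, g v k p ≠ 0 → p ∈ Subtype.val '' v.1 := fun v k p e =>
    ((hg v).ge ⟨k, rfl⟩).elim (fun a => absurd (by simp [a]) e) fun a => (s1 v).2 _ a p e
  obtain ⟨s, hs⟩ := exists_surjective_nat (ℕ × ℕ)
  obtain ⟨Γ, h, h1, h2, h3⟩ := H.MP_e9bccb.gru (ψ := fun c : V × ℕ => g c.1 c.2)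
    (fun c x => by_contra fun e => let ⟨p, _, a⟩ := g1 _ _ _ e; p.2 (by rw [a])) (fun x y e => by
      obtain ⟨v, hv⟩ := cv (x, y) e
      obtain ⟨w, f, f1, f2⟩ := s2 v _ hv
      obtain ⟨k, rfl⟩ := (hg w).le (Or.inr f1)
      exact ⟨(w, k), f2⟩) (N := fun n => {c | c.1.1 ∈ B (s n).1 ∧ c.2 = (s n).2}) fun p c => by
      by_cases e : p.1 = p.2
      · obtain ⟨n, hn⟩ := mem_iUnion.1 (b1.le c.1.2)
        obtain ⟨m, hm⟩ := hs (n, c.2)
        exact ⟨m, by simp [hm, hn], finite_empty.subset fun j hj =>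
          let ⟨q, _, a⟩ := g1 _ _ _ hj.2; q.2 (a ▸ e)⟩
      · obtain ⟨n, n1, n2⟩ := mem_iUnion₂.1 ((b2 ⟨p, e⟩).le c.1.2)
        obtain ⟨m, hm⟩ := hs (n, c.2)
        refine ⟨m, by simp [hm, n2], ((Finite.preimage Subtype.val_injective.injOn n1).prod
          (finite_singleton c.2)).subset fun j hj => ?_⟩
        obtain ⟨q, q1, a⟩ := g1 _ _ _ hj.2
        simp only [hm, mem_ofPred_eq] at hj
        exact ⟨⟨hj.1.1, by cases a; exact q1⟩, hj.1.2⟩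
  refine ⟨fun A U u1 u2 => ?_, ?_⟩
  · obtain ⟨Γ, h, h1, h2, h3⟩ := H.MP_e9bccb.guS (H.MP_e9bccb.skP h1 h2 h3)
    obtain ⟨ι, V, N, v1, v2, v3⟩ := H.MP_e9bccb.hwm h1 h2 h3
      (Q := {u | IsOpen u ∧ Subtype.val ⁻¹' u ∈ U}) fun _ e => e.1
    let f : ι → Set A := fun i => Subtype.val ⁻¹' V i
    refine ⟨f '' {i | (V i).Nonempty}, forall_mem_image.2 fun i _ =>
      (v1 i).1.preimage continuous_subtype_val, eq_univ_of_forall fun x => ?_,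
      forall_mem_image.2 fun i hi => let ⟨u, a, b⟩ := (v1 i).2 hi; ⟨_, a.2, preimage_mono b⟩,
      fun n => f '' ({i | (V i).Nonempty} ∩ N n), ?_⟩
    · obtain ⟨u, a, b⟩ := u2.ge (mem_univ x)
      obtain ⟨w, w1, rfl⟩ := isOpen_induced_iff.1 (u1 u a)
      obtain ⟨i, hi⟩ := mem_iUnion.1 (v2 ⟨w, ⟨w1, a⟩, b⟩)
      exact ⟨_, ⟨i, ⟨_, hi⟩, rfl⟩, hi⟩
    · refine ⟨Subset.antisymm (forall_mem_image.2 fun i hi => ?_) (iUnion_subset fun n =>
        image_mono inter_subset_left), fun x => Subset.antisymm (forall_mem_image.2 fun i hi => ?_)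
          (iUnion₂_subset fun n _ => image_mono inter_subset_left)⟩
      · obtain ⟨n, n1, -⟩ := v3 hi.some i
        exact mem_iUnion.2 ⟨n, i, ⟨hi, n1⟩, rfl⟩
      · obtain ⟨n, n1, n2⟩ := v3 x i
        refine mem_iUnion₂.2 ⟨n, (n2.image f).subset ?_, i, ⟨hi, n1⟩, rfl⟩
        rintro _ ⟨⟨j, j1, rfl⟩, j2⟩
        exact ⟨j, ⟨j1.2, j2⟩, rfl⟩
  · obtain ⟨N, hN⟩ := (H.MP_e9bccb.gu.1 (H.MP_e9bccb.skG h1 h2 h3)).gn
    choose K k1 k2 k3 using hN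
    exact ⟨_, range K, countable_range N, eq_univ_of_forall fun z => ⟨_, ⟨z, rfl⟩, k2 z⟩,
      forall_mem_range.2 fun z => ⟨k1 z, fun U a b => exists_range_iff.2 (k3 z U a b)⟩⟩

end Pool.Agent.Results.MP_294ed4_gt.Gulko
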